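import Pool.Agent.H37.CTO.Stmts

/-!
# Denominators of conductors: `p = 2`: a sharper general upper bound, and `SL_n(q)`, `q` even:
`N = (q ^ (n - 2) / 2) lcm_(1 ≤ m < n) (q ^ m - 1)`: statements of the rows of the board `ctp`

Row `XXX` is a theorem `xxx_thm (h1 : S_AAA) ... : S_XXX` in `Pool/Agent/H<k>/CTP/XXX.lean`, importing this
file, namespace `Pool.CND`.

`n = s + 3`, `Q = q ^ (s + 1) ≥ 4`.  The splitting field over `k(t)` of `E(T) = T ^ (q ^ n) + a T ^ (q ^ (n - 1)) + b T ^ q + T`, `a = t ^ ((q - 1) (Q - 2))`, `b = t ^ (q (Q - 2) - 1)` has conductor `(Q ν + 2) / (Q (Q - 1))`.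
`e = - P.ord t`.  Orders of the roots: `X_0`: `e (q (Q - 2) - 1) / (q - 1)`; `X_1, ..., X_(s+1)`: `- e (Q - 3) / (q (Q - 1))`; `X_(s+2)`: `- e (Q - 2) / (q Q)`.  `Y_l`, `Yt`, `Yp` as in `cto` (structure `PY`).
`v = Yt / Y_0`, `h = ζ^(q/2) t ^ ((Q - 2) / 2) / Y_0 ^ (Q / 2)`, `z = v ^ (Q / 2) + h`: `v = z ^ 2 + ...`, `z ^ Q + z = h + ...`.
-/

set_option autoImplicit false

namespace Pool.CND

open Finset Polynomial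

/-! ## The upper bound for `p = 2` -/

/-- DF2: `p = 2`: in a Laurent series field of characteristic `2` derivatives have even order; with `v` fixed by `H`, `P.ord v = |H|` (`DF1`): `z = ∑ a_j v ^ j + ...`, `D z = ∑_(j odd) a_j v ^ (j - 1) D v + ...`, `ord D v = |H| - 1 + S(H)` -/
def S_DF2 : Prop := ∀ (k L G : Type) [Field k] [Field L] [Algebra k L] [Group G] [Fintype G]
  (P : Place k L) (φ : L →ₐ[k] LaurentSeries k) (D : L → LaurentSeries k)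
  (ρ : G →* (L ≃ₐ[k] L)) (H : Subgroup G) (z : L), CharP k 2 → Function.Injective ρ →
  (∀ g ∈ H, g ∈ ram P ρ 1) → Dv 2 k L P φ D → (∀ h ∈ H, ρ h z = z) → D z ≠ 0 →
  ∃ n : ℤ, (D z).order = Nat.card H - 1 + sm (fun g => P.b (ρ g)) {h | h ∈ H ∧ h ≠ 1} +
    2 * n * Nat.card H

/-- OD2: `z` fixed by `W` with `P.ord z = |W|`: `ord D z = |W| - 1 + S(W)` (`DF1`) `= |H| - 1 + S(H) + 2 n |H|` (`DF2`), `2 |H| ∣ |W|` -/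
def S_OD2 : Prop := ∀ (k L G : Type) [Field k] [Field L] [Algebra k L] [Group G] [Fintype G]
  (P : Place k L) (ρ : G →* (L ≃ₐ[k] L)) (H W : Subgroup G) (d : ℕ), CharP k 2 →
  Function.Injective ρ → (∀ g ∈ W, g ∈ ram P ρ 1) → H ≤ W →
  Nat.card W = 2 ^ (d + 1) * Nat.card H → ∃ n : ℤ,
  sm (fun g => P.b (ρ g)) {g | g ∈ W ∧ g ∉ H} = Nat.card H * (2 * n + 1)

/-- INT: `p = 2`, `|H : H₀| = 2`, `z ∈ H ∖ H₀` with the largest value `l` of `b`: `b(z n) = b(n)` for `n ∈ H₀`, `n ≠ 1`, so the coset sum over `H ∖ H₀` is `l + S(H₀) = |H₀| B`, `B` odd (`HB`, `HER`); `l + S(H) = |H| B`, and with `OD2` `l + S(I) = |H| (B + odd)` -/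
def S_INT : Prop := ∀ (k L G : Type) [Field k] [Field L] [Algebra k L] [Group G] [Fintype G]
  (P : Place k L) (ρ : G →* (L ≃ₐ[k] L)) (I H H₀ : Subgroup G) (d : ℕ) (l : ℤ) (z : G),
  CharP k 2 → Function.Injective ρ → (∀ g ∈ I, g ∈ ram P ρ 1) → H ≤ I → H₀ ≤ H → z ∈ H →
  z ∉ H₀ → Nat.card H = 2 * Nat.card H₀ → P.b (ρ z) = l →
  Nat.card I = 2 ^ (d + 1) * Nat.card H → IsLst (fun g => P.b (ρ g)) I l →
  ∃ y : ℤ, (2 : ℚ) ^ d * U (fun g => P.b (ρ g)) I l = y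

/-- GDX: as `GDW` (`Pool/Agent/H54/CNL/GDW.lean`), with `INP` or `INT` -/
def S_GDX : Prop := ∀ (p : ℕ) (k G : Type) [Field k] [IsAlgClosed k] [Group G] [Finite G]
  (a r : ℕ), p.Prime → CharP k p → 1 ≤ r →
  (∀ W : Subgroup G, (∃ n : ℕ, Nat.card W = p ^ n) → Subgroup.normalClosure (W : Set G) = ⊤ →
    (∀ z ∈ W, z ≠ 1 → z ^ p = 1 → (∀ w ∈ W, w * z = z * w) → ∃ (H : Subgroup G) (d : ℕ),
      H ≤ W ∧ z ∈ H ∧ Nat.card W = p ^ d * Nat.card H ∧ ((PSec p H z ∧ d ≤ a) ∨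
        (p = 2 ∧ 1 ≤ d ∧ d ≤ a + 1 ∧ ∃ H₀ : Subgroup G, H₀ ≤ H ∧ z ∉ H₀ ∧
          Nat.card H = 2 * Nat.card H₀))) ∧
    (∀ (g : G) (C : Subgroup G), ¬ p ∣ orderOf g → (∀ w ∈ W, g * w * g⁻¹ ∈ W) → C ≤ W → C ≠ ⊥ →
      EA p C → (∀ w ∈ W, ∀ x ∈ C, w * x = x * w) → (∀ x ∈ C, g * x * g⁻¹ ∈ C) → YS g C →
      ∀ x ∈ C, g ^ r * x = x * g ^ r)) →
  (∀ c ∈ Cond k G, ∃ y : ℤ, ((p ^ a * r : ℕ) : ℚ) * c = y) ∧ NG k G ∣ p ^ a * r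

/-- UB4: as `UB3` (`Pool/Agent/H14/CTN/UB3.lean`), `p = 2`, `GDX` with `a = f (n - 2) - 1`: for `d = f (n - 2)` take the kernel of `λ ∘ χ`, `λ : F → F_2` additive with `λ(χ z) ≠ 0` -/
def S_UB4 : Prop := ∀ (f q n : ℕ) (k F G : Type) [Field k] [IsAlgClosed k] [CharP k 2] [Field F]
  [Group G] [Finite G] (C : Subgroup G) [C.Normal] (ι : G →* Matrix.GeneralLinearGroup (Fin n) F),
  1 ≤ f → q = 2 ^ f → Nat.card F = q → 3 ≤ n → Function.Injective ι →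
  C ≤ Subgroup.center G → ¬ 2 ∣ Nat.card C →
  (∀ c ∈ Cond k (G ⧸ C), ∃ y : ℤ,
    ((2 ^ (f * (n - 2) - 1) * (Finset.Icc 1 (n - 1)).lcm (fun m => q ^ m - 1) : ℕ) : ℚ) * c = y) ∧
  NG k (G ⧸ C) ∣ 2 ^ (f * (n - 2) - 1) * (Finset.Icc 1 (n - 1)).lcm (fun m => q ^ m - 1)

/-! ## The covers for `p = 2` -/

/-- `ν = Q - 3 + q (q (Q - 2) - 1) (Q - 1) / (q - 1)`, odd -/
def nu2 (q s : ℕ) : ℕ :=
  q ^ (s + 1) - 3 + q * (q * (q ^ (s + 1) - 2) - 1) * ∑ i ∈ range (s + 1), q ^ i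

/-- the roots `X i` -/
structure RRoots (k F L : Type) [Field k] [Field F] [Field L] [Algebra F k] [Algebra k L]
    (q s : ℕ) (t : L) (X : Fin (s + 3) → L) : Prop where
  rel : ∀ i, X i ^ q ^ (s + 3) + t ^ ((q - 1) * (q ^ (s + 1) - 2)) * X i ^ q ^ (s + 2) +
    t ^ (q * (q ^ (s + 1) - 2) - 1) * X i ^ q + X i = 0
  ind : ∀ c : Fin (s + 3) → F, ∑ i, cst k F L (c i) * X i = 0 → c = 0
  tr : Transcendental k t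

/-- orders of the roots at `P`, over `t = ∞` -/
structure ROrd (k F L : Type) [Field k] [Field F] [Field L] [Algebra F k] [Algebra k L]
    (q s : ℕ) (t : L) (X : Fin (s + 3) → L) (P : Place k L) : Prop where
  neg : P.ord t < 0
  small : ((q : ℤ) - 1) * P.ord (X 0) = -(((q : ℤ) * ((q : ℤ) ^ (s + 1) - 2) - 1) * P.ord t)
  mid : ∀ c : Fin (s + 3) → F, c (Fin.last (s + 2)) = 0 → (∃ i, i ≠ 0 ∧ c i ≠ 0) →
    (q : ℤ) * ((q : ℤ) ^ (s + 1) - 1) * P.ord (∑ i, cst k F L (c i) * X i) =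
      ((q : ℤ) ^ (s + 1) - 3) * P.ord t
  top : ∀ c : Fin (s + 3) → F, c (Fin.last (s + 2)) ≠ 0 →
    (q : ℤ) * (q : ℤ) ^ (s + 1) * P.ord (∑ i, cst k F L (c i) * X i) =
      ((q : ℤ) ^ (s + 1) - 2) * P.ord t

/-- R41: as `P41` -/
def S_R41 : Prop := ∀ (k F : Type) [Field k] [IsAlgClosed k] [Field F] [Algebra F k]
  (f q s : ℕ), CharP k 2 → 1 ≤ f → q = 2 ^ f → Nat.card F = q → 4 ≤ q ^ (s + 1) →
  ∃ (L : Type) (_ : Field L) (_ : Algebra k L) (t : L) (X : Fin (s + 3) → L)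
    (G₀ : Subgroup (Matrix.SpecialLinearGroup (Fin (s + 3)) F)) (ρ : G₀ →* (L ≃ₐ[k] L))
    (P : Place k L), RRoots k F L q s t X ∧ NCover k F L t X G₀ ρ ∧ ROrd k F L q s t X P

/-- R42: as `P42` -/
def S_R42 : Prop := ∀ (k F L : Type) [Field k] [IsAlgClosed k] [Field F] [Algebra F k]
  [Field L] [Algebra k L] (f q s : ℕ) (t : L) (X : Fin (s + 3) → L)
  (G₀ : Subgroup (Matrix.SpecialLinearGroup (Fin (s + 3)) F)) (ρ : G₀ →* (L ≃ₐ[k] L))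
  (P : Place k L), CharP k 2 → 1 ≤ f → q = 2 ^ f → Nat.card F = q → 4 ≤ q ^ (s + 1) →
  RRoots k F L q s t X → NCover k F L t X G₀ ρ → ROrd k F L q s t X P →
  ∀ w : G₀, w ∈ ram P ρ 1 → w.1.1 0 0 = 1 ∧
    (∀ i j, j ≠ Fin.last (s + 2) → i ≠ 0 → w.1.1 i j = if i = j then 1 else 0) ∧
    (∀ j, w.1.1 (Fin.last (s + 2)) j = if Fin.last (s + 2) = j then 1 else 0)

/-- R33: as `P33`; `D_b = q (Q - 2) - 1`: `P.ord π_U / e = D_b - (q ^ j' - 1) (Q - 3) / (Q - 1)`, minus `(q - 1) q ^ j' (Q - 2) / Q` if `U` has vectors with `u_(s+2) ≠ 0`; `0` only for `U = ⊤` -/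
def S_R33 : Prop := ∀ (k F L : Type) [Field k] [IsAlgClosed k] [Field F] [Algebra F k]
  [Field L] [Algebra k L] (f q s : ℕ) (t : L) (X : Fin (s + 3) → L)
  (G₀ : Subgroup (Matrix.SpecialLinearGroup (Fin (s + 3)) F)) (ρ : G₀ →* (L ≃ₐ[k] L))
  (P : Place k L), CharP k 2 → 1 ≤ f → q = 2 ^ f → Nat.card F = q → 4 ≤ q ^ (s + 1) →
  RRoots k F L q s t X → NCover k F L t X G₀ ρ → ROrd k F L q s t X P →
  ∀ U : Submodule F (Fin (s + 3) → F), (∀ g ∈ G₀, ∀ u ∈ U, g.1.mulVec u ∈ U) →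
    Pi.single 0 1 ∈ U → U = ⊤

/-- R53: as `P53` -/
def S_R53 : Prop := ∀ (k F L : Type) [Field k] [Field F] [Fintype F] [Algebra F k]
  [Field L] [Algebra k L] (f q s : ℕ) (t : L) (X : Fin (s + 3) → L) (Y : Fin (s + 1) → L)
  (Yt Yp : L), CharP k 2 → 1 ≤ f → q = 2 ^ f → Nat.card F = q → 4 ≤ q ^ (s + 1) →
  RRoots k F L q s t X → PY k F L q s X Y Yt Yp → X 0 ≠ 0 ∧ (∀ l, Y l ≠ 0) ∧ Yp ≠ 0 ∧
  ∃ r : ℕ → L, Yp ^ (q - 1) * r 0 = 1 ∧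
    r 0 ^ q + Yp ^ (q - 1) * r 1 = t ^ (q * (q ^ (s + 1) - 2) - 1) ∧
    (∀ i, 2 ≤ i → i ≤ s + 1 → r (i - 1) ^ q = Yp ^ (q - 1) * r i) ∧
    r (s + 1) ^ q + Yp ^ (q - 1) = t ^ ((q - 1) * (q ^ (s + 1) - 2)) ∧
    (∀ i, i ≠ Fin.last (s + 2) → X i ^ q ^ (s + 2) + ∑ j ∈ range (s + 2), r j * X i ^ q ^ j = 0) ∧
    X (Fin.last (s + 2)) ^ q ^ (s + 2) +
      ∑ j ∈ range (s + 2), r j * X (Fin.last (s + 2)) ^ q ^ j = Yp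

/-- R54: as `P54`; the relative errors for the middle roots are only `O` of order `2 e (q - 1) / (Q - 1)` (the term `X ^ (q ^ n)` against `b X ^ q`) -/
def S_R54 : Prop := ∀ (k F L : Type) [Field k] [IsAlgClosed k] [Field F] [Fintype F]
  [Algebra F k] [Field L] [Algebra k L] (f q s : ℕ) (t : L) (X : Fin (s + 3) → L)
  (Y : Fin (s + 1) → L) (Yt Yp : L) (P : Place k L), CharP k 2 → 1 ≤ f → q = 2 ^ f →
  Nat.card F = q → 4 ≤ q ^ (s + 1) → RRoots k F L q s t X → ROrd k F L q s t X P →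
  PY k F L q s X Y Yt Yp →
  P.Ge (X 0 ^ (q - 1) * t ^ (q * (q ^ (s + 1) - 2) - 1) + 1) (-P.ord t) ∧
  (∀ l, ((q : ℤ) ^ (s + 1) - 1) * P.ord (Y l) = ((q : ℤ) ^ (s + 1) - 3) * P.ord t) ∧
  (∀ l, Y l ^ (q ^ (s + 1) - 1) / t ^ (q ^ (s + 1) - 3) = 1 ∨
    -2 * P.ord t ≤ ((q : ℤ) ^ (s + 1) - 1) *
      P.ord (Y l ^ (q ^ (s + 1) - 1) / t ^ (q ^ (s + 1) - 3) - 1)) ∧
  Yt ≠ 0 ∧ (q : ℤ) ^ (s + 1) * P.ord Yt = ((q : ℤ) ^ (s + 1) - 2) * P.ord t ∧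
  ∃ θ : Fin (s + 1) → k, θ 0 = 1 ∧ (∀ l, θ l ^ q ^ (s + 1) = θ l) ∧
    (∀ c : Fin (s + 1) → F, ∑ l, algebraMap F k (c l) * θ l = 0 → c = 0) ∧
    ∀ l, Y l / Y 0 = algebraMap k L (θ l) ∨
      -2 * P.ord t ≤ ((q : ℤ) ^ (s + 1) - 1) * P.ord (Y l / Y 0 - algebraMap k L (θ l))

/-- R5D: as `P5D`; `r_(s+1) ^ q` is smaller than `a` by `2 e` -/
def S_R5D : Prop := ∀ (k F L : Type) [Field k] [IsAlgClosed k] [Field F] [Fintype F]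
  [Algebra F k] [Field L] [Algebra k L] (f q s : ℕ) (t : L) (X : Fin (s + 3) → L)
  (Y : Fin (s + 1) → L) (Yt Yp : L) (P : Place k L) (r : ℕ → L), CharP k 2 → 1 ≤ f →
  q = 2 ^ f → Nat.card F = q → 4 ≤ q ^ (s + 1) → RRoots k F L q s t X →
  ROrd k F L q s t X P → PY k F L q s X Y Yt Yp → Yp ^ (q - 1) * r 0 = 1 →
  r 0 ^ q + Yp ^ (q - 1) * r 1 = t ^ (q * (q ^ (s + 1) - 2) - 1) →
  (∀ i, 2 ≤ i → i ≤ s + 1 → r (i - 1) ^ q = Yp ^ (q - 1) * r i) →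
  r (s + 1) ^ q + Yp ^ (q - 1) = t ^ ((q - 1) * (q ^ (s + 1) - 2)) →
  P.ord Yp = ((q : ℤ) ^ (s + 1) - 2) * P.ord t ∧
  P.ord (r 0) = -(((q : ℤ) - 1) * ((q : ℤ) ^ (s + 1) - 2) * P.ord t) ∧
  (∀ i, 1 ≤ i → i ≤ s + 1 → P.ord (r i) = ((q : ℤ) ^ (s + 1) - 2 - q ^ (i - 1)) * P.ord t) ∧
  ∃ ζ : k, ζ ^ (q - 1) = 1 ∧
    P.Ge (Yp / (algebraMap k L ζ * t ^ (q ^ (s + 1) - 2)) - 1) (-2 * P.ord t)

/-- R5E: as `P5E`: `v ^ Q + v = Yp / Y_0 ^ Q + (errors) = h ^ 2 + ε`; relative to `Yp`, `r_i Yt ^ (q ^ (i - 1))` has order `2 e q ^ (i - 1) / Q` and `r_i Yt Y_0 ^ (q ^ (i - 1) - 1)` order `2 e / Q + 2 e (q ^ (i - 1) - 1) / (Q - 1)`, `i ≥ 2`, so `P.ord ε ≥ - P.ord h = e / (Q - 1)`; `z ^ 2 = v ^ Q + h ^ 2 = v + ε`,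
`z ^ Q + z = (h ^ 2 + ε) ^ (Q / 2) + h ^ Q + h = h + ε ^ (Q / 2)`.  `(Y_0 / X_0 ^ q) ^ (Q - 1)` is `t ^ ν` up to a relative error of order `2 e / (Q - 1)`, and so is `h ^ ((Q - 1) ν)` -/
def S_R5E : Prop := ∀ (k F L : Type) [Field k] [IsAlgClosed k] [Field F] [Fintype F]
  [Algebra F k] [Field L] [Algebra k L] (f q s : ℕ) (t : L) (X : Fin (s + 3) → L)
  (Y : Fin (s + 1) → L) (Yt Yp h z : L) (ζ : k) (P : Place k L), CharP k 2 → 1 ≤ f →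
  q = 2 ^ f → Nat.card F = q → 4 ≤ q ^ (s + 1) → RRoots k F L q s t X →
  ROrd k F L q s t X P → PY k F L q s X Y Yt Yp → ζ ^ (q - 1) = 1 →
  P.Ge (Yp / (algebraMap k L ζ * t ^ (q ^ (s + 1) - 2)) - 1) (-2 * P.ord t) →
  h = algebraMap k L ζ ^ (q / 2) * t ^ ((q ^ (s + 1) - 2) / 2) / Y 0 ^ (q ^ (s + 1) / 2) →
  z = (Yt / Y 0) ^ (q ^ (s + 1) / 2) + h →
  h ≠ 0 ∧ ((q : ℤ) ^ (s + 1) - 1) * P.ord h = P.ord t ∧
  P.Ge (Yp / Y 0 ^ q ^ (s + 1) - h ^ 2) (-P.ord h) ∧ P.Ge (Yt / Y 0 - z ^ 2) (-P.ord h) ∧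
  P.Ge (z ^ q ^ (s + 1) - z - h) (-P.ord h) ∧
  ∃ α : k, α ≠ 0 ∧
    P.Ge (Y 0 / X 0 ^ q - algebraMap k L α * h ^ nu2 q s) (((nu2 q s : ℤ) - 2) * P.ord h)

/-- R5H: as `P5H`, `Z_l = ψ_l`: `ψ_l ^ q - ψ_l = (Yp / Y_0 ^ Q) (β_l + ...) = β_l h ^ 2 + O(1)` (relative error of order `2 q e / (Q - 1)`) -/
def S_R5H : Prop := ∀ (k F L : Type) [Field k] [IsAlgClosed k] [Field F] [Fintype F]
  [Algebra F k] [Field L] [Algebra k L] (f q s : ℕ) (t : L) (X : Fin (s + 3) → L)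
  (G₀ : Subgroup (Matrix.SpecialLinearGroup (Fin (s + 3)) F)) (ρ : G₀ →* (L ≃ₐ[k] L))
  (Y : Fin (s + 1) → L) (Yt Yp h : L) (ζ : k) (θ : Fin (s + 1) → k) (P : Place k L),
  CharP k 2 → 1 ≤ f → q = 2 ^ f → Nat.card F = q → 4 ≤ q ^ (s + 1) →
  RRoots k F L q s t X → NCover k F L t X G₀ ρ → ROrd k F L q s t X P →
  PY k F L q s X Y Yt Yp →
  (∀ w : G₀, w ∈ ram P ρ 1 → w.1.1 0 0 = 1 ∧
    (∀ i j, j ≠ Fin.last (s + 2) → i ≠ 0 → w.1.1 i j = if i = j then 1 else 0) ∧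
    (∀ j, w.1.1 (Fin.last (s + 2)) j = if Fin.last (s + 2) = j then 1 else 0)) →
  θ 0 = 1 → (∀ l, θ l ^ q ^ (s + 1) = θ l) →
  (∀ c : Fin (s + 1) → F, ∑ l, algebraMap F k (c l) * θ l = 0 → c = 0) →
  (∀ l, Y l / Y 0 = algebraMap k L (θ l) ∨
    -2 * P.ord t ≤ ((q : ℤ) ^ (s + 1) - 1) * P.ord (Y l / Y 0 - algebraMap k L (θ l))) →
  h = algebraMap k L ζ ^ (q / 2) * t ^ ((q ^ (s + 1) - 2) / 2) / Y 0 ^ (q ^ (s + 1) / 2) →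
  h ≠ 0 → ((q : ℤ) ^ (s + 1) - 1) * P.ord h = P.ord t →
  P.Ge (Yp / Y 0 ^ q ^ (s + 1) - h ^ 2) (-P.ord h) →
  (∀ w : G₀, w ∈ ram P ρ 1 → ρ w h = h ∧ (∀ l, ρ w (Y l) = Y l) ∧
    ρ w Yt = Yt + ∑ l, cst k F L (w.1.1 (mi s l) (Fin.last (s + 2))) * Y l) ∧
  ∃ (Z : Fin (s + 1) → L) (β : Fin (s + 1) → k),
    (∀ c : Fin (s + 1) → F, ∑ l, algebraMap F k (c l) * β l = 0 → c = 0) ∧
    (∀ w : G₀, w ∈ ram P ρ 1 → ∀ l, ρ w (Z l) =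
      Z l + cst k F L (w.1.1 (mi s l) (Fin.last (s + 2)))) ∧
    ∀ l, P.Ge (Z l ^ q - Z l - algebraMap k L (β l) * h ^ 2) 0

/-- R55: as `P55`; in `UMR` take `g = γ h`, `γ ^ 2 = ∑ a_l β_l ≠ 0`: `∑ a_l (Z_l ^ q - Z_l) - (g ^ 2 - g) = γ h + O(1)` -/
def S_R55 : Prop := ∀ (k F L : Type) [Field k] [IsAlgClosed k] [Field F] [Fintype F]
  [Algebra F k] [Field L] [Algebra k L] (f q s : ℕ) (t : L) (X : Fin (s + 3) → L)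
  (G₀ : Subgroup (Matrix.SpecialLinearGroup (Fin (s + 3)) F)) [Fintype G₀]
  (ρ : G₀ →* (L ≃ₐ[k] L)) (h z : L) (Z : Fin (s + 1) → L) (β : Fin (s + 1) → k)
  (P : Place k L) (I W M : Subgroup G₀), CharP k 2 → 1 ≤ f → q = 2 ^ f →
  Nat.card F = q → 4 ≤ q ^ (s + 1) → NCover k F L t X G₀ ρ → P.ord t < 0 →
  (∀ w : G₀, w ∈ ram P ρ 1 → w.1.1 0 0 = 1 ∧
    (∀ i j, j ≠ Fin.last (s + 2) → i ≠ 0 → w.1.1 i j = if i = j then 1 else 0) ∧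
    (∀ j, w.1.1 (Fin.last (s + 2)) j = if Fin.last (s + 2) = j then 1 else 0)) →
  h ≠ 0 → ((q : ℤ) ^ (s + 1) - 1) * P.ord h = P.ord t →
  P.Ge (z ^ q ^ (s + 1) - z - h) (-P.ord h) →
  (∀ w : G₀, w ∈ ram P ρ 1 → ρ w h = h) →
  (∀ c : Fin (s + 1) → F, ∑ l, algebraMap F k (c l) * β l = 0 → c = 0) →
  (∀ w : G₀, w ∈ ram P ρ 1 → ∀ l, ρ w (Z l) =
    Z l + cst k F L (w.1.1 (mi s l) (Fin.last (s + 2)))) →
  (∀ l, P.Ge (Z l ^ q - Z l - algebraMap k L (β l) * h ^ 2) 0) →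
  (I : Set G₀) = ram P ρ 0 → (W : Set G₀) = ram P ρ 1 →
  (∀ g, g ∈ M ↔ g ∈ W ∧ ∀ l, g.1.1 (mi s l) (Fin.last (s + 2)) = 0) →
  ∃ τ : ℕ, 1 ≤ τ ∧ ¬ 2 ∣ τ ∧ Nat.card W = q ^ (s + 1) * Nat.card M ∧
    Nat.card I = Nat.card W * ((q ^ (s + 1) - 1) * τ) ∧
    P.ord z = -((τ * Nat.card M : ℕ) : ℤ) ∧
    ∀ g ∈ W, g ∉ M → sm (fun x => P.b (ρ x)) {x | g⁻¹ * x ∈ M} = Nat.card M * τ

/-- XT3: `α A ^ m + β X ^ 2 A ^ m + g`, `A = X ^ Q + X`, `m` odd: above `Q (m - 1) + 3` only the exponents `Q m + 2` and `Q m`, which are even and reduce to less; the coefficient of `X ^ (Q (m - 1) + 3)` is `m β`; if `β = 0` the coefficient of `X ^ (Q (m - 1) + 1)` is `m α` -/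
def S_XT3 : Prop := ∀ (d : ℕ) (k : Type) [Field k] [IsAlgClosed k] [CharP k 2]
  (m : ℕ) (α β : k) (g A : Polynomial k), 2 ≤ d →
  A = Polynomial.X ^ 2 ^ d + Polynomial.X → 3 ≤ m → ¬ 2 ∣ m →
  (β ≠ 0 → g.natDegree < 2 ^ d * (m - 1) + 3 → ∃ r : Polynomial k,
    ((Polynomial.C α * A ^ m + Polynomial.C β * (Polynomial.X ^ 2 * A ^ m) + g) -
      (r ^ 2 - r)).natDegree = 2 ^ d * (m - 1) + 3) ∧
  (β = 0 → α ≠ 0 → g.natDegree < 2 ^ d * (m - 1) + 1 → ∃ r : Polynomial k,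
    ((Polynomial.C α * A ^ m + g) - (r ^ 2 - r)).natDegree = 2 ^ d * (m - 1) + 1)

/-- R56: as `P56`: the last function: `Yt / X_0 ^ q = (z ^ 2 + ...) Y_0 / X_0 ^ q`; `XT3` (`d = f (s + 1)`, `A = X ^ Q + X`, `h = A(z) + ...`), `D_0 = Q (ν - 1) + 3`; errors of degree `≤ Q (ν - 1)` in `z` -/
def S_R56 : Prop := ∀ (k F L : Type) [Field k] [IsAlgClosed k] [Field F] [Fintype F]
  [Algebra F k] [Field L] [Algebra k L] (f q s : ℕ) (t : L) (X : Fin (s + 3) → L)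
  (G₀ : Subgroup (Matrix.SpecialLinearGroup (Fin (s + 3)) F)) [Fintype G₀]
  (ρ : G₀ →* (L ≃ₐ[k] L)) (Y : Fin (s + 1) → L) (Yt Yp h z : L) (θ : Fin (s + 1) → k) (α : k)
  (P : Place k L) (W M : Subgroup G₀) (τ : ℕ), CharP k 2 → 1 ≤ f →
  q = 2 ^ f → Nat.card F = q → 4 ≤ q ^ (s + 1) → NCover k F L t X G₀ ρ → P.ord t < 0 →
  X 0 ≠ 0 → Y 0 ≠ 0 → PY k F L q s X Y Yt Yp →
  (∀ w : G₀, w ∈ ram P ρ 1 → w.1.1 0 0 = 1 ∧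
    (∀ i j, j ≠ Fin.last (s + 2) → i ≠ 0 → w.1.1 i j = if i = j then 1 else 0) ∧
    (∀ j, w.1.1 (Fin.last (s + 2)) j = if Fin.last (s + 2) = j then 1 else 0)) →
  (∀ c : Fin (s + 1) → F, ∑ l, algebraMap F k (c l) * θ l = 0 → c = 0) →
  (∀ l, Y l / Y 0 = algebraMap k L (θ l) ∨
    -2 * P.ord t ≤ ((q : ℤ) ^ (s + 1) - 1) * P.ord (Y l / Y 0 - algebraMap k L (θ l))) →
  h ≠ 0 → ((q : ℤ) ^ (s + 1) - 1) * P.ord h = P.ord t →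
  z = (Yt / Y 0) ^ (q ^ (s + 1) / 2) + h → P.Ge (Yt / Y 0 - z ^ 2) (-P.ord h) →
  P.Ge (z ^ q ^ (s + 1) - z - h) (-P.ord h) → α ≠ 0 →
  P.Ge (Y 0 / X 0 ^ q - algebraMap k L α * h ^ nu2 q s) (((nu2 q s : ℤ) - 2) * P.ord h) →
  (∀ w : G₀, w ∈ ram P ρ 1 → ρ w h = h) → (W : Set G₀) = ram P ρ 1 →
  (∀ g, g ∈ M ↔ g ∈ W ∧ ∀ l, g.1.1 (mi s l) (Fin.last (s + 2)) = 0) → 1 ≤ τ → ¬ 2 ∣ τ →
  P.ord z = -((τ * Nat.card M : ℕ) : ℤ) →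
  Nat.card M = q ^ (s + 2) ∧ (∀ v : Fin (s + 2) → F, ∃ g ∈ M, ∀ i, g.1.1 0 (Fin.succ i) = v i) ∧
  ∃ l : ℤ, IsLst (fun g => P.b (ρ g)) M l ∧
    U (fun g => P.b (ρ g)) M l = (((q ^ (s + 1) * (nu2 q s - 1) + 3) * τ : ℕ) : ℚ)

/-- R57: as `P57` -/
def S_R57 : Prop := ∀ (k F : Type) [Field k] [IsAlgClosed k] [Field F] [Algebra F k]
  (f q s : ℕ), CharP k 2 → 1 ≤ f → q = 2 ^ f → Nat.card F = q → 4 ≤ q ^ (s + 1) →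
  ((q : ℚ) ^ (s + 1) * nu2 q s + 2) / ((q : ℚ) ^ (s + 1) * ((q : ℚ) ^ (s + 1) - 1)) ∈
    Cond k (Matrix.SpecialLinearGroup (Fin (s + 3)) F)

/-! ## Conclusion -/

/-- RFN: `R57`, `ALL` (`2 ^ (f (n - 2) - 1) ∣ N`, `F` embeds in `k`; nothing to prove if `q ^ (n - 2) = 2`), `NLB`, `NQD`, `UB4` -/
def S_RFN : Prop := ∀ (k F : Type) [Field k] [IsAlgClosed k] [Field F] (f q n : ℕ),
  CharP k 2 → 1 ≤ f → q = 2 ^ f → Nat.card F = q → 3 ≤ n →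
  ∀ (C : Subgroup (Matrix.SpecialLinearGroup (Fin n) F)) [C.Normal],
  C ≤ Subgroup.center (Matrix.SpecialLinearGroup (Fin n) F) →
  NG k (Matrix.SpecialLinearGroup (Fin n) F ⧸ C) =
    2 ^ (f * (n - 2) - 1) * (Finset.Icc 1 (n - 1)).lcm (fun m => q ^ m - 1)

/-- SFN: `PFN`, `RFN` -/
def S_SFN : Prop := ∀ (p : ℕ) (k F : Type) [Field k] [IsAlgClosed k] [Field F] (f q n : ℕ),
  p.Prime → CharP k p → 1 ≤ f → q = p ^ f → Nat.card F = q → 3 ≤ n →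
  ∀ (C : Subgroup (Matrix.SpecialLinearGroup (Fin n) F)) [C.Normal],
  C ≤ Subgroup.center (Matrix.SpecialLinearGroup (Fin n) F) →
  NG k (Matrix.SpecialLinearGroup (Fin n) F ⧸ C) =
    q ^ (n - 2) / Nat.gcd 2 q * (Finset.Icc 1 (n - 1)).lcm (fun m => q ^ m - 1)

/-- `G` is isomorphic to a quotient of `SL_n(q)`, `n ≥ 2`, or `SU_3(q)` by a central subgroup, or (`p = 2`) to a Suzuki group, and `N` is the value of `N_G` -/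
def LieN (p : ℕ) (G : Type) [Group G] (N : ℕ) : Prop :=
  (∃ (F : Type) (_ : Field F) (f q n : ℕ) (C : Subgroup (Matrix.SpecialLinearGroup (Fin n) F))
    (_ : C.Normal), 1 ≤ f ∧ q = p ^ f ∧ Nat.card F = q ∧ C ≤ Subgroup.center _ ∧
    Nonempty (G ≃* Matrix.SpecialLinearGroup (Fin n) F ⧸ C) ∧
    ((n = 2 ∧ N = (q - 1) / Nat.gcd 2 (q - 1)) ∨
      (3 ≤ n ∧ N = q ^ (n - 2) / Nat.gcd 2 q *
        (Finset.Icc 1 (n - 1)).lcm (fun m => q ^ m - 1)))) ∨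
  (∃ (F : Type) (_ : Field F) (f q : ℕ) (σ : F →+* F) (C : Subgroup (SU3 σ)) (_ : C.Normal),
    1 ≤ f ∧ q = p ^ f ∧ Nat.card F = q ^ 2 ∧ (∀ a, σ a = a ^ q) ∧ C ≤ Subgroup.center _ ∧
    Nonempty (G ≃* SU3 σ ⧸ C) ∧ N = q * (q - 1)) ∨
  (p = 2 ∧ ∃ (F : Type) (_ : Field F) (_ : CharP F 2) (n q : ℕ) (φ : F →+* F), 1 ≤ n ∧
    q = 2 ^ (2 * n + 1) ∧ Nat.card F = q ∧ (∀ a, φ a = a ^ 2 ^ (n + 1)) ∧
    Nonempty (G ≃* Sz φ) ∧ N = 2 ^ n * (q - 1))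

/-- LTX: as `RKP`, with `SFN`, `HC5` -/
def S_LTX : Prop := ∀ (p n : ℕ) (k : Type) [Field k] [IsAlgClosed k] [CharP k p]
  (G : Fin n → Type) [∀ i, Group (G i)] (N : Fin n → ℕ), p.Prime →
  (∀ i, LieN p (G i) (N i)) → NG k (∀ i, G i) = (Finset.univ : Finset (Fin n)).lcm N

end Pool.CND
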